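import Mathlib
import Pool.Agent.Lib_helper90.FR.Final

set_option autoImplicit false

namespace Pool.Agent.Results.MP_c98c8e_al.MetabelianFreiheitssatz

open Pool.Agent.H90.FR

universe u

section defs

variable {n m : ℕ} (A : Fin n → Type u) [∀ i, Group (A i)] (r : Fin m → Monoid.CoprodI A)

/-- The group `G = F / N`, where `F` is the free product of the groups `A i` and `N` is the normal
closure in `F` of the elements `r j`. -/
def RelQuot : Type u :=
  Monoid.CoprodI A ⧸ Subgroup.normalClosure (Set.range r)

instance instGroupRelQuot : Group (RelQuot A r) :=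
  inferInstanceAs (Group (Monoid.CoprodI A ⧸ Subgroup.normalClosure (Set.range r)))

/-- The projection from the free product `F` onto `G = F / N`. -/
def proj : Monoid.CoprodI A →* RelQuot A r :=
  QuotientGroup.mk' (Subgroup.normalClosure (Set.range r))

/-- The free product of the groups `A i`, `i ∈ S`. -/
abbrev SubProd (S : Finset (Fin n)) : Type u :=
  Monoid.CoprodI (fun i : S => A i)

/-- The natural homomorphism from the free product of the `A i`, `i ∈ S`, to `G`. -/
def natMap (S : Finset (Fin n)) : SubProd A S →* RelQuot A r :=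
  (proj A r).comp (Monoid.CoprodI.lift (M := fun i : S => A i)
    (fun i => Monoid.CoprodI.of (i := (i : Fin n))))

end defs

/-- `H` is (torsion-free abelian)-by-(torsion-free abelian): it has a subgroup `B` that contains
all commutators of `H`, is abelian and torsion-free, and contains every element of `H` with a
positive power in `B`. -/
def TFAbByTFAb (H : Type u) [Group H] : Prop :=
  ∃ B : Subgroup H, (∀ x y : H, x * y * x⁻¹ * y⁻¹ ∈ B) ∧
    (∀ x ∈ B, ∀ y ∈ B, x * y = y * x) ∧
    (∀ x ∈ B, ∀ k : ℕ, 0 < k → x ^ k = 1 → x = 1) ∧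
    (∀ x : H, ∀ k : ℕ, 0 < k → x ^ k ∈ B → x ∈ B)

/-- Let `m < n`, let `A 0, ..., A (n-1)` be arbitrary groups, `F` their free product, `N` the
normal closure of `m` elements of `F` and `G = F / N`.  There is a set `S` of `n - m` indices such
that

* every element of the free product of the `A i`, `i ∈ S`, whose image in `G` lies in the second
  rational derived subgroup `ratDer2 G` (in particular every element of the kernel) lies in the
  second rational derived subgroup of that free product;
* for `i ∈ S`, every element of `A i` whose image in `G` lies in `ratDer2 G` lies in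
  `ratDer2 (A i)`;
* if `m = n - 1` and every `A i` is (torsion-free abelian)-by-(torsion-free abelian), then the
  free product of the `A i`, `i ∈ S`, embeds in `G`. -/
theorem result {n m : ℕ} (hmn : m < n) (A : Fin n → Type u) [∀ i, Group (A i)]
    (r : Fin m → Monoid.CoprodI A) :
    ∃ S : Finset (Fin n), S.card = n - m ∧
      (∀ x : SubProd A S, natMap A r S x ∈ ratDer2 (RelQuot A r) → x ∈ ratDer2 (SubProd A S)) ∧
      (∀ i ∈ S, ∀ a : A i, proj A r (Monoid.CoprodI.of a) ∈ ratDer2 (RelQuot A r) →
        a ∈ ratDer2 (A i)) ∧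
      (m + 1 = n → (∀ i, TFAbByTFAb (A i)) → Function.Injective (natMap A r S)) := by
  obtain ⟨S, hS, h⟩ := main hmn r
  have hfac : ∀ i ∈ S, ∀ a : A i,
      proj A r (Monoid.CoprodI.of a) ∈ ratDer2 (RelQuot A r) → a ∈ ratDer2 (A i) := by
    intro i hi a ha
    have h1 := h (Monoid.CoprodI.of (M := fun i : S => A i) (i := ⟨i, hi⟩) a) (by
      rw [Monoid.CoprodI.lift_of]
      exact ha)
    let ρ : Monoid.CoprodI (fun i : S => A i) →* A i :=
      Monoid.CoprodI.lift (M := fun i : S => A i) (Pi.mulSingle (M := fun j : S => A j →* A i)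
        ⟨i, hi⟩ (MonoidHom.id (A i)))
    have h2 := map_mem_ratDer2 ρ _ h1
    have h3 : ρ (Monoid.CoprodI.of (M := fun i : S => A i) (i := ⟨i, hi⟩) a) = a := by
      change Monoid.CoprodI.lift (M := fun i : S => A i) (Pi.mulSingle
        (M := fun j : S => A j →* A i) ⟨i, hi⟩ (MonoidHom.id (A i))) _ = _
      rw [Monoid.CoprodI.lift_of (M := fun i : S => A i), Pi.mulSingle_eq_same]
      rfl
    rw [h3] at h2
    exact h2
  refine ⟨S, hS, h, hfac, ?_⟩
  intro hm hB
  have hS1 : S.card = 1 := by omega
  obtain ⟨i₀, hi₀⟩ := Finset.card_eq_one.1 hS1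
  have hmem : i₀ ∈ S := by rw [hi₀]; exact Finset.mem_singleton_self i₀
  have hof : ∀ x : Monoid.CoprodI (fun i : S => A i), ∃ a : A i₀,
      x = Monoid.CoprodI.of (M := fun i : S => A i) (i := ⟨i₀, hmem⟩) a := by
    intro x
    induction x using Monoid.CoprodI.induction_on with
    | one => exact ⟨1, by rw [map_one]⟩
    | of i a =>
      have hi : i = ⟨i₀, hmem⟩ := by
        apply Subtype.ext
        exact Finset.mem_singleton.1 (hi₀.subset i.2)
      subst hi
      exact ⟨a, rfl⟩
    | mul x y hx hy =>
      obtain ⟨a, rfl⟩ := hx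
      obtain ⟨b, rfl⟩ := hy
      exact ⟨a * b, by rw [map_mul]⟩
  rw [injective_iff_map_eq_one]
  intro x hx
  obtain ⟨a, rfl⟩ := hof x
  unfold natMap at hx
  rw [MonoidHom.comp_apply, Monoid.CoprodI.lift_of (M := fun i : S => A i)] at hx
  have h1 : a ∈ ratDer2 (A i₀) := by
    apply hfac i₀ hmem a
    rw [hx]
    exact Subgroup.one_mem _
  obtain ⟨B, hB1, hB2, hB3, hB4⟩ := hB i₀
  rw [eq_one_of_mem_ratDer2 B hB1 hB2 hB3 hB4 a h1, map_one]

end Pool.Agent.Results.MP_c98c8e_al.MetabelianFreiheitssatz
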