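import Mathlib
import Pool.Agent.Lib_helper90.FS.LE

set_option autoImplicit false

namespace Pool.Agent.Results.MP_c98c8e_al.RankOneFreiheitssatz

universe u

section defs

variable {n m : ℕ} (A : Fin n → Type u) [∀ i, Group (A i)] (r : Fin m → Monoid.CoprodI A)

/-- The group `G = F / N`, where `F` is the free product of the groups `A i` and `N` is the normal
closure in `F` of the elements `r j`. -/
def RelQuot : Type u :=
  Monoid.CoprodI A ⧸ Subgroup.normalClosure (Set.range r)

instance instGroupRelQuot : Group (RelQuot A r) :=
  inferInstanceAs (Group (Monoid.CoprodI A ⧸ Subgroup.normalClosure (Set.range r)))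

/-- The projection from the free product `F` onto `G = F / N`. -/
def proj : Monoid.CoprodI A →* RelQuot A r :=
  QuotientGroup.mk' (Subgroup.normalClosure (Set.range r))

/-- The free product of the groups `A i`, `i ∈ S`. -/
abbrev SubProd (S : Finset (Fin n)) : Type u :=
  Monoid.CoprodI (fun i : S => A i)

/-- The natural homomorphism from the free product of the `A i`, `i ∈ S`, to `G`. -/
def natMap (S : Finset (Fin n)) : SubProd A S →* RelQuot A r :=
  (proj A r).comp (Monoid.CoprodI.lift (M := fun i : S => A i)
    (fun i => Monoid.CoprodI.of (i := (i : Fin n))))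

end defs

/-- `B` is an extension of a torsion-free abelian group by a subgroup of the additive group of the
rational numbers: there is a homomorphism `τ : B → ℚ` with abelian and torsion-free kernel. -/
def RankOne (B : Type u) [Group B] : Prop :=
  ∃ τ : B →* Multiplicative ℚ, (∀ x y, τ x = 1 → τ y = 1 → x * y = y * x) ∧
    ∀ (x : B) (k : ℕ), τ x = 1 → 0 < k → x ^ k = 1 → x = 1

/-- `A` is locally embeddable into the class of the finite free products of groups which satisfy
`RankOne`: for every finite subset `X` of `A` there is a map `f` from `A` to such a free product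
with `f (x * y) = f x * f y` for `x`, `y` in `X` and `f x ≠ 1` for `x ≠ 1` in `X`. -/
def LocEmb (A : Type u) [Group A] : Prop :=
  ∀ X : Set A, X.Finite → ∃ (l : ℕ) (B : Fin l → Type u) (_ : ∀ j, Group (B j))
    (f : A → Monoid.CoprodI B), (∀ j, RankOne (B j)) ∧
    (∀ x ∈ X, ∀ y ∈ X, f (x * y) = f x * f y) ∧ ∀ x ∈ X, x ≠ 1 → f x ≠ 1

/-- Let `m < n`, let `A 0, ..., A (n-1)` be groups which are locally embeddable into the finite free
products of groups with a homomorphism to `ℚ` with torsion-free abelian kernel, `F` their free
product, `N` the normal closure of `m` arbitrary elements of `F` and `G = F / N`.  There is a set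
`S` of `n - m` indices such that the free product of the `A i`, `i ∈ S`, embeds in `G`. -/
theorem result {n m : ℕ} (hmn : m < n) (A : Fin n → Type u) [∀ i, Group (A i)]
    (hA : ∀ i, LocEmb (A i)) (r : Fin m → Monoid.CoprodI A) :
    ∃ S : Finset (Fin n), S.card = n - m ∧ Function.Injective (natMap A r S) := by
  obtain ⟨S, hS, h⟩ := Pool.Agent.H90.FS.main_locEmb hmn.le hA r
  refine ⟨S, hS, ?_⟩
  rw [injective_iff_map_eq_one]
  intro x hx
  apply h
  exact (QuotientGroup.eq_one_iff _).1 hx

end Pool.Agent.Results.MP_c98c8e_al.RankOneFreiheitssatz
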